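import Mathlib

/-!
# Chain fillings of the round sphere
-/

set_option autoImplicit false

open MeasureTheory Set

namespace Pool.Agent.TH599.SU

/-- the round sphere of dimension `d`: the unit vectors of `ℝ^(d+1)` -/
abbrev Sph (d : ℕ) : Type := {w : EuclideanSpace ℝ (Fin (d + 1)) // ‖w‖ = 1}

/-- spherical coordinates on the unit cube: `(cos 2πx₀, sin 2πx₀)` for `d = 1`, and
`(cos πx₀, sin πx₀ · sph (x₁, x₂, …))` for `d ≥ 2` -/
noncomputable def sph : (d : ℕ) → (Fin d → unitInterval) → Fin (d + 1) → ℝ
  | 0, _ => fun _ => 1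
  | 1, x => ![Real.cos (2 * Real.pi * x 0), Real.sin (2 * Real.pi * x 0)]
  | d + 2, x => Fin.cons (Real.cos (Real.pi * x 0))
      (fun i => Real.sin (Real.pi * x 0) * sph (d + 1) (Fin.tail x) i)

lemma sph_sq : ∀ (d : ℕ) (x : Fin d → unitInterval), ∑ i, sph d x i ^ 2 = 1
  | 0, _ => by simp [sph]
  | 1, x => by
    simp only [sph, Fin.sum_univ_two]
    simp
  | d + 2, x => by
    have h := sph_sq (d + 1) (Fin.tail x)
    rw [Fin.sum_univ_succ]
    simp only [sph, Fin.cons_zero, Fin.cons_succ, mul_pow, ← Finset.mul_sum]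
    rw [h]
    simp

/-- spherical coordinates, as a map to the round sphere -/
noncomputable def sphS (d : ℕ) (x : Fin d → unitInterval) : Sph d :=
  ⟨WithLp.toLp 2 (sph d x), by
    rw [EuclideanSpace.norm_eq]
    simp only [Real.norm_eq_abs, sq_abs]
    rw [sph_sq d x, Real.sqrt_one]⟩

/-- the face `x_i = ε` of a singular cube -/
def face {M : Type} {n : ℕ} (i : Fin (n + 1)) (ε : unitInterval)
    (σ : (Fin (n + 1) → unitInterval) → M) : (Fin n → unitInterval) → M :=
  fun x => σ (i.insertNth ε x)

/-- the boundary of a chain of singular cubes with integral coefficients -/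
noncomputable def bdry {M : Type} (n : ℕ) :
    FreeAbelianGroup ((Fin (n + 1) → unitInterval) → M) →+
      FreeAbelianGroup ((Fin n → unitInterval) → M) :=
  FreeAbelianGroup.lift fun σ => ∑ i : Fin (n + 1), (-1 : ℤ) ^ (i : ℕ) •
    (FreeAbelianGroup.of (face i 1 σ) - FreeAbelianGroup.of (face i 0 σ))

/-- a degenerate cube: it does not depend on one of the coordinates -/
def Degen {M : Type} {n : ℕ} (σ : (Fin n → unitInterval) → M) : Prop :=
  ∃ i, ∀ x y, (∀ j, j ≠ i → x j = y j) → σ x = σ y

/-- the degenerate chains -/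
def DegG (M : Type) (n : ℕ) : AddSubgroup (FreeAbelianGroup ((Fin n → unitInterval) → M)) :=
  AddSubgroup.closure {c | ∃ σ, Degen σ ∧ c = FreeAbelianGroup.of σ}

/-- the quadratic form of a matrix -/
def quad {n : ℕ} (A : Matrix (Fin n) (Fin n) ℝ) (v : Fin n → ℝ) : ℝ :=
  ∑ i, ∑ j, v i * A i j * v j

/-- A nonshortcutting filling of the round sphere of dimension `d` by a singular chain with
integral coefficients: a metric space `M` with a map `bd` of the sphere to `M` which does not
decrease the distances, finitely many singular cubes of dimension `d + 1` in `M` with coefficients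
`coef k` and continuous Riemannian (possibly degenerate) metrics `G k`, such that the distances in
`M` are at most the lengths of the segments in the cubes, and such that the boundary of the chain
is the fundamental cycle of the sphere, up to degenerate cubes. -/
structure Filling (d : ℕ) where
  M : Type
  met : MetricSpace M
  bd : Sph d → M
  nonshort : ∀ w w' : Sph d, InnerProductGeometry.angle w.1 w'.1 ≤ dist (bd w) (bd w')
  m : ℕ
  coef : Fin m → ℤ
  cube : Fin m → (Fin (d + 1) → unitInterval) → M
  G : Fin m → (Fin (d + 1) → ℝ) → Matrix (Fin (d + 1)) (Fin (d + 1)) ℝ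
  cont : ∀ k, ContinuousOn (G k) (Icc 0 1)
  symm : ∀ k z, (G k z).IsSymm
  psd : ∀ k, ∀ z ∈ Icc (0 : Fin (d + 1) → ℝ) 1, ∀ v, 0 ≤ quad (G k z) v
  len : ∀ k, ∀ x y : Fin (d + 1) → unitInterval, dist (cube k x) (cube k y) ≤
    ∫ t in (0:ℝ)..1, √(quad (G k fun i => (x i : ℝ) + t * ((y i : ℝ) - x i))
      fun i => (y i : ℝ) - x i)
  fills : bdry d (∑ k, coef k • FreeAbelianGroup.of (cube k)) -
    FreeAbelianGroup.of (fun x => bd (sphS d x)) ∈ DegG M d

attribute [instance] Filling.met

/-- the volume of a filling -/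
noncomputable def Filling.vol {d : ℕ} (F : Filling d) : ℝ :=
  ∑ k, |(F.coef k : ℝ)| * ∫ z in Icc (0 : Fin (d + 1) → ℝ) 1, √((F.G k z).det)

end Pool.Agent.TH599.SU
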