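import Pool.Agent.TH599.SU.Met

set_option autoImplicit false

open Real Set MeasureTheory Filter Topology

namespace Pool.Agent.TH599.SU

lemma quad_symm_GS {n : ℕ} {G : (Fin n → ℝ) → Matrix (Fin n) (Fin n) ℝ}
    (hs : ∀ z, (G z).IsSymm) (z : Fin (n + 1) → ℝ) : (GS G z).IsSymm := by
  refine Matrix.IsSymm.ext fun i j => ?_
  refine Fin.cases ?_ (fun i => ?_) i
  · refine Fin.cases rfl (fun j => rfl) j
  · refine Fin.cases rfl (fun j => ?_) j
    rw [GS_succ_succ, GS_succ_succ, (hs _).apply i j]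

lemma fills_susp {M : Type} [MetricSpace M] {d m : ℕ} (coef : Fin m → ℤ)
    (cube : Fin m → (Fin (d + 2) → unitInterval) → M) (b : Sph (d + 1) → M)
    (h : bdry (d + 1) (∑ k, coef k • FreeAbelianGroup.of (cube k)) -
      FreeAbelianGroup.of (fun x => b (sphS (d + 1) x)) ∈ DegG M (d + 1)) :
    bdry (d + 2) (∑ k, (-coef k) • FreeAbelianGroup.of (susp (cube k))) -
      FreeAbelianGroup.of (fun x => bdS b (sphS (d + 2) x)) ∈
        DegG (SeparationQuotient (Pre M)) (d + 2) := by
  have e1 : ∑ k, (-coef k) • FreeAbelianGroup.of (susp (cube k)) =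
      -SC (d + 2) (∑ k, coef k • FreeAbelianGroup.of (cube k)) := by
    rw [map_sum, ← Finset.sum_neg_distrib]
    apply Finset.sum_congr rfl
    intro k _
    rw [map_zsmul, SC_of, neg_smul]
  rw [e1, bdS_sphS, ← SC_of, map_neg]
  have h1 := bdry_SC (d + 1) (∑ k, coef k • FreeAbelianGroup.of (cube k))
  have h2 := SC_deg h
  rw [map_sub] at h2
  generalize SC (d + 2) (∑ k, coef k • FreeAbelianGroup.of (cube k)) = X at h1
  have e2 : -bdry (d + 2) X - SC (d + 1) (FreeAbelianGroup.of fun x => b (sphS (d + 1) x)) =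
      -(bdry (d + 2) X +
        SC (d + 1) (bdry (d + 1) (∑ k, coef k • FreeAbelianGroup.of (cube k)))) +
      (SC (d + 1) (bdry (d + 1) (∑ k, coef k • FreeAbelianGroup.of (cube k))) -
        SC (d + 1) (FreeAbelianGroup.of fun x => b (sphS (d + 1) x))) := by abel
  rw [e2]
  exact add_mem (neg_mem h1) h2

/-- the spherical suspension of a filling -/
noncomputable def suspF {d : ℕ} (F : Filling (d + 1)) : Filling (d + 2) where
  M := SeparationQuotient (Pre F.M)
  met := inferInstance
  bd := bdS F.bd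
  nonshort := nonshort_bdS F.nonshort
  m := F.m
  coef := fun k => -F.coef k
  cube := fun k => susp (F.cube k)
  G := fun k => GS (F.G k)
  cont := fun k => GS_cont (F.cont k)
  symm := fun k => quad_symm_GS (F.symm k)
  psd := by
    intro k z hz v
    rw [quad_GS]
    have h := F.psd k _ (tail_mem hz) (Fin.tail v)
    positivity
  len := fun k => susp_len (F.cont k) (F.psd k) (F.len k)
  fills := fills_susp F.coef F.cube F.bd F.fills

lemma vol_suspF {d : ℕ} (F : Filling (d + 1)) : (suspF F).vol = W (d + 2) * F.vol := by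
  unfold Filling.vol
  rw [Finset.mul_sum]
  apply Finset.sum_congr rfl
  intro k _
  change |((-F.coef k : ℤ) : ℝ)| * (∫ z in Icc (0 : Fin (d + 3) → ℝ) 1, √((GS (F.G k) z).det)) =
    W (d + 2) * (|(F.coef k : ℝ)| * ∫ z in Icc (0 : Fin (d + 2) → ℝ) 1, √((F.G k z).det))
  rw [vol_GS, Int.cast_neg, abs_neg]
  ring

/-- every filling of the round sphere of dimension `d` has volume at least `c` times the volume
of the hemisphere -/
def Bound (d : ℕ) (c : ℝ) : Prop := ∀ F : Filling d, c * hemi (d + 1) ≤ F.vol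

lemma bound_down {d : ℕ} {c : ℝ} (h : Bound (d + 2) c) : Bound (d + 1) c := by
  intro F
  have h1 := h (suspF F)
  rw [vol_suspF, hemi_succ (d + 2)] at h1
  have h2 : W (d + 2) * (c * hemi (d + 2)) ≤ W (d + 2) * F.vol := by linarith
  exact le_of_mul_le_mul_left h2 (W_pos _)

lemma bound_down' {d e : ℕ} {c : ℝ} (hd : 1 ≤ d) (hde : d ≤ e) (h : Bound e c) : Bound d c := by
  induction e, hde using Nat.le_induction with
  | base => exact h
  | succ e hde ih =>
    obtain ⟨e', rfl⟩ : ∃ e', e = e' + 1 := ⟨e - 1, by omega⟩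
    exact ih (bound_down h)

lemma bound_limit {d : ℕ} (h : ∀ ε : ℝ, 0 < ε → Bound d (1 - ε)) : Bound d 1 := by
  intro F
  rw [one_mul]
  apply le_of_forall_pos_le_add
  intro δ hδ
  have hp := hemi_pos (d + 1)
  have h1 := h (δ / hemi (d + 1)) (div_pos hδ hp) F
  rw [sub_mul, one_mul, div_mul_cancel₀ _ hp.ne'] at h1
  linarith

lemma asymp : (∀ d, 1 ≤ d → Bound d 1) ↔
    ∀ ε : ℝ, 0 < ε → ∀ N : ℕ, ∃ d, N ≤ d ∧ Bound d (1 - ε) := by
  constructor
  · intro h ε hε N
    refine ⟨max N 1, le_max_left _ _, fun F => ?_⟩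
    have h1 := h (max N 1) (le_max_right _ _) F
    have h2 := hemi_pos (max N 1 + 1)
    nlinarith
  · intro h d hd
    apply bound_limit
    intro ε hε
    obtain ⟨e, he, hb⟩ := h ε hε d
    exact bound_down' hd he hb

end Pool.Agent.TH599.SU
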