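import Pool.Agent.TH599.SU.Down

set_option autoImplicit false

open Real Set MeasureTheory Filter Topology

namespace Pool.Agent.TH599.SU

/-- the round sphere with the angle metric -/
structure RS (d : ℕ) : Type where
  val : Sph d

lemma sph_ne_zero {d : ℕ} (w : Sph d) : w.1 ≠ 0 := by
  intro h
  have := w.2
  rw [h, norm_zero] at this
  exact zero_ne_one this

noncomputable instance (d : ℕ) : MetricSpace (RS d) where
  dist p q := InnerProductGeometry.angle p.val.1 q.val.1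
  dist_self p := InnerProductGeometry.angle_self (sph_ne_zero _)
  dist_comm p q := InnerProductGeometry.angle_comm _ _
  dist_triangle p q r := InnerProductGeometry.angle_le_angle_add_angle _ _ _
  eq_of_dist_eq_zero := by
    rintro ⟨p⟩ ⟨q⟩ h
    change InnerProductGeometry.angle p.1 q.1 = 0 at h
    rw [InnerProductGeometry.angle_eq_zero_iff] at h
    obtain ⟨_, r, hr, hq⟩ := h
    have h1 : ‖q.1‖ = r * ‖p.1‖ := by rw [hq, norm_smul, norm_of_nonneg hr.le]
    rw [p.2, q.2, mul_one] at h1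
    congr 1
    apply Subtype.ext
    rw [hq, ← h1, one_smul]

lemma dist_RS {d : ℕ} (p q : Sph d) :
    dist (RS.mk p) (RS.mk q) = InnerProductGeometry.angle p.1 q.1 := rfl

/-- spherical coordinates on the hemisphere of dimension two -/
noncomputable def hc (x : Fin 2 → unitInterval) : RS 2 :=
  ⟨⟨vv (π / 2 * x 1) (2 * π * x 0), norm_vv _ _⟩⟩

/-- the equator -/
noncomputable def eqv (w : Sph 1) : EuclideanSpace ℝ (Fin 3) := !₂[0, w.1 0, w.1 1]

lemma inner_eqv (w w' : Sph 1) : inner ℝ (eqv w) (eqv w') = inner ℝ w.1 w'.1 := by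
  unfold eqv
  rw [PiLp.inner_apply, PiLp.inner_apply]
  simp [Fin.sum_univ_three]

lemma norm_eqv (w : Sph 1) : ‖eqv w‖ = 1 := by
  have h : ‖eqv w‖ ^ 2 = 1 := by
    rw [← real_inner_self_eq_norm_sq, inner_eqv, real_inner_self_eq_norm_sq, w.2, one_pow]
  have h2 : 0 ≤ ‖eqv w‖ := norm_nonneg _
  nlinarith

/-- the metric of the hemisphere in spherical coordinates -/
noncomputable def hG (z : Fin 2 → ℝ) : Matrix (Fin 2) (Fin 2) ℝ :=
  !![(2 * π * sin (π / 2 * z 1)) ^ 2, 0; 0, (π / 2) ^ 2]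

lemma quad_hG (z v : Fin 2 → ℝ) :
    quad (hG z) v = (2 * π * sin (π / 2 * z 1)) ^ 2 * v 0 ^ 2 + (π / 2) ^ 2 * v 1 ^ 2 := by
  unfold quad hG
  simp [Fin.sum_univ_two]
  ring

lemma hc_len (x y : Fin 2 → unitInterval) : dist (hc x) (hc y) ≤
    ∫ t in (0:ℝ)..1, √(quad (hG fun i => (x i : ℝ) + t * ((y i : ℝ) - x i))
      fun i => (y i : ℝ) - x i) := by
  unfold hc
  rw [dist_RS]
  change InnerProductGeometry.angle (vv (π / 2 * x 1) (2 * π * x 0))
    (vv (π / 2 * y 1) (2 * π * y 0)) ≤ _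
  rw [angle_vv]
  have h1 := len_lemma (π / 2 * x 1) (π / 2 * y 1)
    (fun _ => |2 * π * (x 0 : ℝ) - 2 * π * (y 0 : ℝ)|) continuousOn_const
    (fun _ _ => abs_nonneg _) (|2 * π * (x 0 : ℝ) - 2 * π * (y 0 : ℝ)|) (abs_nonneg _)
    (by simp)
  have e0 : sd (π / 2 * x 1) (π / 2 * y 1) |2 * π * (x 0 : ℝ) - 2 * π * (y 0 : ℝ)| =
      sd (π / 2 * x 1) (π / 2 * y 1) (2 * π * (x 0 : ℝ) - 2 * π * (y 0 : ℝ)) := by
    unfold sd
    rw [cos_abs]
  rw [e0] at h1
  refine h1.trans (le_of_eq ?_)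
  apply intervalIntegral.integral_congr
  intro t _
  simp only [quad_hG, sq_abs]
  congr 1
  have e1 : π / 2 * (x 1 : ℝ) + t * (π / 2 * (y 1 : ℝ) - π / 2 * (x 1 : ℝ)) =
      π / 2 * ((x 1 : ℝ) + t * ((y 1 : ℝ) - x 1)) := by ring
  rw [e1]
  ring

lemma hc_fills : bdry 1 (∑ _k : Fin 1, (-1 : ℤ) • FreeAbelianGroup.of hc) -
    FreeAbelianGroup.of (fun x => (⟨⟨eqv (sphS 1 x), norm_eqv _⟩⟩ : RS 2)) ∈ DegG (RS 2) 1 := by
  have e0 : face 0 1 hc = face 0 0 hc := by
    funext x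
    unfold face hc
    congr 2
    unfold vv
    have h1 : ((Fin.insertNth 0 (1 : unitInterval) x : Fin 2 → unitInterval) 0) = 1 :=
      Fin.insertNth_apply_same _ _ _
    have h2 : ((Fin.insertNth 0 (0 : unitInterval) x : Fin 2 → unitInterval) 0) = 0 :=
      Fin.insertNth_apply_same _ _ _
    have h3 : ((Fin.insertNth 0 (1 : unitInterval) x : Fin 2 → unitInterval) 1) = x 0 := rfl
    have h4 : ((Fin.insertNth 0 (0 : unitInterval) x : Fin 2 → unitInterval) 1) = x 0 := rfl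
    rw [h1, h2, h3, h4]
    simp
  have e1 : face 1 1 hc = fun x => (⟨⟨eqv (sphS 1 x), norm_eqv _⟩⟩ : RS 2) := by
    funext x
    unfold face hc
    congr 2
    unfold vv eqv
    have h1 : ((Fin.insertNth 1 (1 : unitInterval) x : Fin 2 → unitInterval) 1) = 1 :=
      Fin.insertNth_apply_same _ _ _
    have h3 : ((Fin.insertNth 1 (1 : unitInterval) x : Fin 2 → unitInterval) 0) = x 0 := rfl
    rw [h1, h3]
    simp [sphS, sph]
  have e2 : Degen (face 1 0 hc) := by
    refine ⟨0, fun x y _ => ?_⟩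
    unfold face hc
    congr 2
    unfold vv
    have h1 : ((Fin.insertNth 1 (0 : unitInterval) x : Fin 2 → unitInterval) 1) = 0 :=
      Fin.insertNth_apply_same _ _ _
    have h2 : ((Fin.insertNth 1 (0 : unitInterval) y : Fin 2 → unitInterval) 1) = 0 :=
      Fin.insertNth_apply_same _ _ _
    rw [h1, h2]
    simp
  rw [Fin.sum_univ_one, map_zsmul, bdry_of, Fin.sum_univ_two, e0, e1]
  have e3 : ((-1 : ℤ) • (((-1 : ℤ) ^ ((0 : Fin 2) : ℕ) • (FreeAbelianGroup.of (face 0 0 hc) -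
      FreeAbelianGroup.of (face 0 0 hc))) + ((-1 : ℤ) ^ ((1 : Fin 2) : ℕ) •
      (FreeAbelianGroup.of (fun x => (⟨⟨eqv (sphS 1 x), norm_eqv _⟩⟩ : RS 2)) -
      FreeAbelianGroup.of (face 1 0 hc)))) -
      FreeAbelianGroup.of (fun x => (⟨⟨eqv (sphS 1 x), norm_eqv _⟩⟩ : RS 2))) =
      -FreeAbelianGroup.of (face 1 0 hc) := by
    simp only [Fin.val_zero, Fin.val_one, pow_zero, pow_one, sub_self, one_smul, neg_smul]
    abel
  rw [e3]
  exact neg_mem (AddSubgroup.subset_closure ⟨_, e2, rfl⟩)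

/-- the hemisphere as a filling of the circle -/
noncomputable def hemiF : Filling 1 where
  M := RS 2
  met := inferInstance
  bd := fun w => ⟨⟨eqv w, norm_eqv w⟩⟩
  nonshort := by
    intro w w'
    rw [dist_RS]
    unfold InnerProductGeometry.angle
    change _ ≤ arccos (inner ℝ (eqv w) (eqv w') / (‖eqv w‖ * ‖eqv w'‖))
    rw [inner_eqv, norm_eqv, norm_eqv, w.2, w'.2]
  m := 1
  coef := fun _ => -1
  cube := fun _ => hc
  G := fun _ => hG
  cont := by
    intro _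
    refine continuousOn_pi.2 fun i => continuousOn_pi.2 fun j => ?_
    fin_cases i <;> fin_cases j
    · change ContinuousOn (fun z : Fin 2 → ℝ => (2 * π * sin (π / 2 * z 1)) ^ 2) _
      fun_prop
    · exact continuousOn_const
    · exact continuousOn_const
    · exact continuousOn_const
  symm := by
    intro _ z
    refine Matrix.IsSymm.ext fun i j => ?_
    fin_cases i <;> fin_cases j <;> simp [hG]
  psd := by
    intro _ z _ v
    rw [quad_hG]
    positivity
  len := fun _ => hc_len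
  fills := hc_fills

lemma cube_zero (c : ℝ) : ∫ _z in Icc (0 : Fin 0 → ℝ) 1, c = c := by
  have h : Icc (0 : Fin 0 → ℝ) 1 = univ := by
    ext z; simp [Subsingleton.elim z 0]
  rw [h]
  simp [Measure.real, volume_pi]

lemma hemi_two : hemi 2 = 2 * π := by
  have h0 : hemi 0 = 1 := by
    rw [hemi_eq]
    norm_num
    rw [Gamma_one_half_eq]
    exact div_self (sqrt_pos.2 pi_pos).ne'
  have h1 : W 0 = π := by unfold W; simp
  have h2 : W 1 = 2 := by unfold W; simp; norm_num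
  rw [hemi_succ, hemi_succ, h0, h1, h2]
  ring

lemma vol_hemiF : hemiF.vol = hemi 2 := by
  unfold Filling.vol
  change ∑ _k : Fin 1, |((-1 : ℤ) : ℝ)| * (∫ z in Icc (0 : Fin 2 → ℝ) 1, √((hG z).det)) = _
  rw [Fin.sum_univ_one]
  have h1 : ∫ z in Icc (0 : Fin 2 → ℝ) 1, √((hG z).det) =
      (∫ _t in (0:ℝ)..1, (1:ℝ)) *
        ∫ y in Icc (0 : Fin 1 → ℝ) 1, π ^ 2 * sin (π / 2 * y 0) := by
    rw [← cube_fubini 1 (fun _ => (1:ℝ)) (fun y : Fin 1 → ℝ => π ^ 2 * sin (π / 2 * y 0))]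
    apply setIntegral_congr_fun measurableSet_Icc
    intro z hz
    have h0 : 0 ≤ sin (π / 2 * z 1) := by
      apply sin_nonneg_of_mem_Icc
      exact ⟨mul_nonneg (by positivity) (hz.1 1), by
        have : z 1 ≤ 1 := hz.2 1
        nlinarith [pi_pos]⟩
    have h2 : (hG z).det = (π ^ 2 * sin (π / 2 * z 1)) ^ 2 := by
      unfold hG
      rw [Matrix.det_fin_two_of]
      ring
    simp only [h2]
    rw [sqrt_sq (mul_nonneg (sq_nonneg _) h0), one_mul]
    rfl
  have h3 : ∫ y in Icc (0 : Fin 1 → ℝ) 1, π ^ 2 * sin (π / 2 * y 0) =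
      (∫ t in (0:ℝ)..1, π ^ 2 * sin (π / 2 * t)) *
        ∫ _y in Icc (0 : Fin 0 → ℝ) 1, (1:ℝ) := by
    rw [← cube_fubini 0 (fun t => π ^ 2 * sin (π / 2 * t)) (fun _ => (1:ℝ))]
    simp
  rw [h1, h3, cube_zero, hemi_two]
  have h4 : ∫ t in (0:ℝ)..1, π ^ 2 * sin (π / 2 * t) = 2 * π := by
    have h := intervalIntegral.mul_integral_comp_mul_left (a := (0:ℝ)) (b := 1)
      (f := fun x => sin x) (π / 2)
    rw [mul_zero, mul_one, integral_sin, cos_zero, cos_pi_div_two] at h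
    rw [intervalIntegral.integral_const_mul]
    have e : π ^ 2 * ∫ t in (0:ℝ)..1, sin (π / 2 * t) =
        2 * π * (π / 2 * ∫ t in (0:ℝ)..1, sin (π / 2 * t)) := by ring
    rw [e, h]
    ring
  rw [h4]
  simp

lemma exists_hemi (d : ℕ) : ∃ F : Filling (d + 1), F.vol = hemi (d + 2) := by
  induction d with
  | zero => exact ⟨hemiF, vol_hemiF⟩
  | succ d ih =>
    obtain ⟨F, hF⟩ := ih
    refine ⟨suspF F, ?_⟩
    rw [vol_suspF, hF]
    exact (hemi_succ (d + 2)).symm

lemma exists_up {d e : ℕ} (hd : 1 ≤ d) (hde : d ≤ e) (F : Filling d) :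
    ∃ F' : Filling e, F'.vol / hemi (e + 1) = F.vol / hemi (d + 1) := by
  induction e, hde using Nat.le_induction with
  | base => exact ⟨F, rfl⟩
  | succ e hde ih =>
    obtain ⟨F', hF'⟩ := ih
    obtain ⟨e', rfl⟩ : ∃ e', e = e' + 1 := ⟨e - 1, by omega⟩
    refine ⟨suspF F', ?_⟩
    rw [← hF', vol_suspF]
    have h := hemi_succ (e' + 2)
    have h1 := (W_pos (e' + 2)).ne'
    have h2 := (hemi_pos (e' + 2)).ne'
    rw [show e' + 1 + 1 + 1 = e' + 2 + 1 from rfl, h, show e' + 1 + 1 = e' + 2 from rfl,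
      mul_div_mul_left _ _ h1]

end Pool.Agent.TH599.SU
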