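import Pool.Agent.TH599.SU.Polar

set_option autoImplicit false

open Real Set MeasureTheory Filter Topology

namespace Pool.Agent.TH599.SU

/-- the suspension of a Riemannian metric on the cube -/
noncomputable def GS {n : ℕ} (G : (Fin n → ℝ) → Matrix (Fin n) (Fin n) ℝ)
    (z : Fin (n + 1) → ℝ) : Matrix (Fin (n + 1)) (Fin (n + 1)) ℝ :=
  Matrix.of (Fin.cons (Fin.cons (π ^ 2) 0)
    (fun i => Fin.cons 0 (fun j => sin (π * z 0) ^ 2 * G (Fin.tail z) i j)))

section

variable {n : ℕ} (G : (Fin n → ℝ) → Matrix (Fin n) (Fin n) ℝ) (z : Fin (n + 1) → ℝ)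

lemma GS_zero_zero : GS G z 0 0 = π ^ 2 := rfl

lemma GS_zero_succ (j : Fin n) : GS G z 0 j.succ = 0 := rfl

lemma GS_succ_zero (i : Fin n) : GS G z i.succ 0 = 0 := rfl

lemma GS_succ_succ (i j : Fin n) :
    GS G z i.succ j.succ = sin (π * z 0) ^ 2 * G (Fin.tail z) i j := rfl

lemma quad_GS (v : Fin (n + 1) → ℝ) :
    quad (GS G z) v = π ^ 2 * v 0 ^ 2 +
      sin (π * z 0) ^ 2 * quad (G (Fin.tail z)) (Fin.tail v) := by
  unfold quad
  simp only [Fin.sum_univ_succ, GS_zero_zero, GS_zero_succ, GS_succ_zero, GS_succ_succ]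
  simp only [mul_zero, zero_mul, Finset.sum_const_zero, add_zero, zero_add, Finset.mul_sum]
  congr 1
  · ring
  · apply Finset.sum_congr rfl
    intro i _
    apply Finset.sum_congr rfl
    intro j _
    simp only [Fin.tail]
    ring

lemma det_GS : (GS G z).det = π ^ 2 * ((sin (π * z 0) ^ 2) ^ n * (G (Fin.tail z)).det) := by
  rw [Matrix.det_succ_row_zero, Fin.sum_univ_succ]
  simp only [GS_zero_zero, GS_zero_succ, mul_zero, zero_mul, Finset.sum_const_zero, add_zero]
  have h : (GS G z).submatrix Fin.succ (Fin.succAbove 0) =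
      (sin (π * z 0) ^ 2) • G (Fin.tail z) := by
    ext i j
    simp [Matrix.submatrix_apply, GS_succ_succ]
  rw [h, Matrix.det_smul]
  simp

end

lemma tail_mem {n : ℕ} {z : Fin (n + 1) → ℝ} (hz : z ∈ Icc (0 : Fin (n + 1) → ℝ) 1) :
    Fin.tail z ∈ Icc (0 : Fin n → ℝ) 1 :=
  ⟨fun i => hz.1 i.succ, fun i => hz.2 i.succ⟩

lemma GS_cont {n : ℕ} {G : (Fin n → ℝ) → Matrix (Fin n) (Fin n) ℝ}
    (hG : ContinuousOn G (Icc 0 1)) : ContinuousOn (GS G) (Icc 0 1) := by
  have htail : Continuous (fun z : Fin (n + 1) → ℝ => Fin.tail z) :=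
    continuous_pi fun i => continuous_apply i.succ
  have h1 : ContinuousOn (fun z : Fin (n + 1) → ℝ => G (Fin.tail z)) (Icc 0 1) :=
    hG.comp htail.continuousOn fun z hz => tail_mem hz
  have h2 : ∀ i j, ContinuousOn (fun z : Fin (n + 1) → ℝ => G (Fin.tail z) i j) (Icc 0 1) := by
    intro i j
    exact (continuous_apply_apply (ρ := fun _ _ => ℝ) i j).comp_continuousOn h1
  refine continuousOn_pi.2 fun i => continuousOn_pi.2 fun j => ?_
  refine Fin.cases ?_ (fun i => ?_) i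
  · refine Fin.cases ?_ (fun j => ?_) j
    · exact continuousOn_const
    · exact continuousOn_const
  · refine Fin.cases ?_ (fun j => ?_) j
    · exact continuousOn_const
    · have h3 : ContinuousOn (fun z : Fin (n + 1) → ℝ => sin (π * z 0) ^ 2) (Icc 0 1) := by
        fun_prop
      exact h3.mul (h2 i j)

lemma seg_mem {n : ℕ} (x y : Fin n → unitInterval) {t : ℝ} (ht : t ∈ Icc (0:ℝ) 1) :
    (fun i => (x i : ℝ) + t * ((y i : ℝ) - x i)) ∈ Icc (0 : Fin n → ℝ) 1 := by
  constructor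
  · intro i
    have h1 := (x i).2.1
    have h2 := (y i).2.1
    have h3 : 0 ≤ (1 - t) * x i + t * y i :=
      add_nonneg (mul_nonneg (by linarith [ht.2]) h1) (mul_nonneg ht.1 h2)
    change (0:ℝ) ≤ _
    linarith
  · intro i
    have h1 := (x i).2.2
    have h2 := (y i).2.2
    have h3 : (1 - t) * x i ≤ (1 - t) * 1 := mul_le_mul_of_nonneg_left h1 (by linarith [ht.2])
    have h4 : t * y i ≤ t * 1 := mul_le_mul_of_nonneg_left h2 ht.1
    change _ ≤ (1:ℝ)
    linarith

lemma quad_cont {n : ℕ} {G : (Fin n → ℝ) → Matrix (Fin n) (Fin n) ℝ}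
    (hG : ContinuousOn G (Icc 0 1)) (x y : Fin n → unitInterval) :
    ContinuousOn (fun t : ℝ => quad (G fun i => (x i : ℝ) + t * ((y i : ℝ) - x i))
      fun i => (y i : ℝ) - x i) (Icc 0 1) := by
  have h1 : ContinuousOn (fun t : ℝ => G fun i => (x i : ℝ) + t * ((y i : ℝ) - x i))
      (Icc 0 1) := by
    refine hG.comp (Continuous.continuousOn ?_) fun t ht => seg_mem x y ht
    exact continuous_pi fun i => by fun_prop
  unfold quad
  refine continuousOn_finsetSum _ fun i _ => continuousOn_finsetSum _ fun j _ => ?_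
  refine (continuousOn_const.mul ?_).mul continuousOn_const
  exact (continuous_apply_apply (ρ := fun _ _ => ℝ) i j).comp_continuousOn h1

/-- the length estimate for the suspension of a cube -/
lemma susp_len {M : Type} [MetricSpace M] {n : ℕ} {σ : (Fin n → unitInterval) → M}
    {G : (Fin n → ℝ) → Matrix (Fin n) (Fin n) ℝ} (hG : ContinuousOn G (Icc 0 1))
    (hpsd : ∀ z ∈ Icc (0 : Fin n → ℝ) 1, ∀ v, 0 ≤ quad (G z) v)
    (hlen : ∀ x y : Fin n → unitInterval, dist (σ x) (σ y) ≤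
      ∫ t in (0:ℝ)..1, √(quad (G fun i => (x i : ℝ) + t * ((y i : ℝ) - x i))
        fun i => (y i : ℝ) - x i))
    (x y : Fin (n + 1) → unitInterval) : dist (susp σ x) (susp σ y) ≤
      ∫ t in (0:ℝ)..1, √(quad (GS G fun i => (x i : ℝ) + t * ((y i : ℝ) - x i))
        fun i => (y i : ℝ) - x i) := by
  have h0 := hlen (Fin.tail x) (Fin.tail y)
  have hρ : ContinuousOn (fun t : ℝ => √(quad (G fun i => ((Fin.tail x) i : ℝ) +
      t * (((Fin.tail y) i : ℝ) - (Fin.tail x) i))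
        fun i => ((Fin.tail y) i : ℝ) - (Fin.tail x) i)) (Icc 0 1) :=
    (quad_cont hG (Fin.tail x) (Fin.tail y)).sqrt
  have h1 := len_lemma (π * x 0) (π * y 0) _ hρ (fun t _ => sqrt_nonneg _)
    (min (dist (σ (Fin.tail x)) (σ (Fin.tail y))) π) (le_min dist_nonneg pi_pos.le)
    ((min_le_left _ _).trans h0)
  unfold susp
  rw [dist_mk]
  refine h1.trans (le_of_eq ?_)
  apply intervalIntegral.integral_congr
  intro t ht
  rw [uIcc_of_le zero_le_one] at ht
  have h2 := hpsd _ (seg_mem (Fin.tail x) (Fin.tail y) ht)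
    (fun i => ((Fin.tail y) i : ℝ) - (Fin.tail x) i)
  simp only [quad_GS]
  rw [sq_sqrt h2]
  have e1 : π * (x 0 : ℝ) + t * (π * (y 0 : ℝ) - π * (x 0 : ℝ)) =
      π * ((x 0 : ℝ) + t * ((y 0 : ℝ) - x 0)) := by ring
  have e2 : (π * (y 0 : ℝ) - π * (x 0 : ℝ)) ^ 2 = π ^ 2 * ((y 0 : ℝ) - x 0) ^ 2 := by ring
  rw [e1, e2]
  rfl

lemma int_sin (n : ℕ) : ∫ t in (0:ℝ)..1, π * sin (π * t) ^ n = W n := by
  rw [intervalIntegral.integral_const_mul]
  have h := intervalIntegral.mul_integral_comp_mul_left (a := (0:ℝ)) (b := 1)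
    (f := fun x => sin x ^ n) π
  rw [mul_zero, mul_one] at h
  exact h

lemma vol_GS {n : ℕ} (G : (Fin n → ℝ) → Matrix (Fin n) (Fin n) ℝ) :
    ∫ z in Icc (0 : Fin (n + 1) → ℝ) 1, √((GS G z).det) =
      W n * ∫ z in Icc (0 : Fin n → ℝ) 1, √((G z).det) := by
  rw [← int_sin, ← cube_fubini n (fun t => π * sin (π * t) ^ n) (fun z => √((G z).det))]
  apply setIntegral_congr_fun measurableSet_Icc
  intro z hz
  have h0 : 0 ≤ sin (π * z 0) := by
    apply sin_nonneg_of_mem_Icc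
    exact ⟨mul_nonneg pi_pos.le (hz.1 0), by
      have : z 0 ≤ 1 := hz.2 0
      nlinarith [pi_pos]⟩
  simp only [det_GS]
  rw [← pow_mul, mul_comm 2 n, pow_mul, ← mul_assoc, ← mul_pow, sqrt_mul (sq_nonneg _),
    sqrt_sq (mul_nonneg pi_pos.le (pow_nonneg h0 _))]

end Pool.Agent.TH599.SU
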