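import Pool.Agent.TH599.SU.Susp

set_option autoImplicit false

open Real Set MeasureTheory Filter Topology

namespace Pool.Agent.TH599.SU

/-- `w` has the colatitude `π t` and the direction `u` -/
def IsPolar {d : ℕ} (w : Sph (d + 1)) (t : unitInterval) (u : Sph d) : Prop :=
  w.1 0 = cos (π * t) ∧ ∀ i : Fin (d + 1), w.1 i.succ = sin (π * t) * u.1 i

lemma sph_norm_sq {d : ℕ} (w : Sph d) : ∑ i, w.1 i ^ 2 = 1 := by
  have h := EuclideanSpace.norm_sq_eq w.1
  rw [w.2] at h
  simpa using h.symm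

lemma exists_polar {d : ℕ} (w : Sph (d + 1)) :
    ∃ t : unitInterval, ∃ u : Sph d, IsPolar w t u := by
  have h := sph_norm_sq w
  rw [Fin.sum_univ_succ] at h
  have hw0 : w.1 0 ^ 2 ≤ 1 := by
    have : 0 ≤ ∑ i : Fin (d + 1), w.1 i.succ ^ 2 := Finset.sum_nonneg fun i _ => sq_nonneg _
    linarith
  have hw1 := abs_le.1 ((sq_le_one_iff_abs_le_one _).1 hw0)
  have hcos : cos (arccos (w.1 0)) = w.1 0 := cos_arccos hw1.1 hw1.2
  have hθ0 : 0 ≤ arccos (w.1 0) := arccos_nonneg _
  have hθ1 : arccos (w.1 0) ≤ π := arccos_le_pi _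
  generalize arccos (w.1 0) = θ at hcos hθ0 hθ1
  have ht : θ / π ∈ Icc (0:ℝ) 1 := ⟨div_nonneg hθ0 pi_pos.le, (div_le_one pi_pos).2 hθ1⟩
  have e : π * (θ / π) = θ := mul_div_cancel₀ _ pi_ne_zero
  have hsum : ∑ i : Fin (d + 1), w.1 i.succ ^ 2 = sin θ ^ 2 := by
    rw [← hcos] at h
    linarith [sin_sq_add_cos_sq θ]
  by_cases hs : sin θ = 0
  · refine ⟨⟨θ / π, ht⟩, ⟨EuclideanSpace.single 0 1, by simp⟩, ?_, ?_⟩
    · change w.1 0 = cos (π * (θ / π))
      rw [e, hcos]
    · intro i
      change w.1 i.succ = sin (π * (θ / π)) * _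
      rw [hs, zero_pow two_ne_zero] at hsum
      have h3 := (Finset.sum_eq_zero_iff_of_nonneg (fun i _ => sq_nonneg _)).1 hsum i
        (Finset.mem_univ _)
      rw [e, hs, zero_mul]
      exact pow_eq_zero_iff two_ne_zero |>.1 h3
  · refine ⟨⟨θ / π, ht⟩, ⟨WithLp.toLp 2 (fun i => w.1 i.succ / sin θ), ?_⟩, ?_, ?_⟩
    · rw [EuclideanSpace.norm_eq]
      simp only [norm_eq_abs, sq_abs, div_pow]
      rw [← Finset.sum_div, hsum, div_self (pow_ne_zero 2 hs), sqrt_one]
    · change w.1 0 = cos (π * (θ / π))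
      rw [e, hcos]
    · intro i
      change w.1 i.succ = sin (π * (θ / π)) * (w.1 i.succ / sin θ)
      rw [e, mul_div_cancel₀ _ hs]

/-- the colatitude divided by `π` -/
noncomputable def pt {d : ℕ} (w : Sph (d + 1)) : unitInterval := (exists_polar w).choose

/-- the direction -/
noncomputable def pu {d : ℕ} (w : Sph (d + 1)) : Sph d := (exists_polar w).choose_spec.choose

lemma isPolar_pt {d : ℕ} (w : Sph (d + 1)) : IsPolar w (pt w) (pu w) :=
  (exists_polar w).choose_spec.choose_spec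

lemma inner_polar {d : ℕ} {w w' : Sph (d + 1)} {t t' : unitInterval} {u u' : Sph d}
    (h : IsPolar w t u) (h' : IsPolar w' t' u') :
    inner ℝ w.1 w'.1 = cos (π * t) * cos (π * t') +
      sin (π * t) * sin (π * t') * inner ℝ u.1 u'.1 := by
  rw [PiLp.inner_apply, PiLp.inner_apply, Fin.sum_univ_succ, Finset.mul_sum]
  congr 1
  · rw [h.1, h'.1]
    simp
    ring
  · apply Finset.sum_congr rfl
    intro i _
    rw [h.2 i, h'.2 i]
    simp
    ring

section

variable {M : Type} [MetricSpace M] {d : ℕ}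

/-- the suspension of the boundary map -/
noncomputable def bdS (b : Sph d → M) : Sph (d + 1) → SeparationQuotient (Pre M) :=
  fun w => mk (b (pu w)) (pt w)

lemma bdS_eq (b : Sph d → M) {w : Sph (d + 1)} {t : unitInterval} {u : Sph d}
    (h : IsPolar w t u) : bdS b w = mk (b u) t := by
  have h' := isPolar_pt w
  have ht : t = pt w := by
    apply Subtype.ext
    have h1 := injOn_cos (pi_mul_mem t) (pi_mul_mem (pt w)) (h.1.symm.trans h'.1)
    exact mul_left_cancel₀ pi_ne_zero h1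
  subst ht
  unfold bdS
  by_cases hs : sin (π * pt w) = 0
  · have h01 : pt w = 0 ∨ pt w = 1 := by
      rcases eq_or_lt_of_le (pt w).2.1 with h0 | h0
      · exact Or.inl (Subtype.ext h0.symm)
      · rcases eq_or_lt_of_le (pt w).2.2 with h1 | h1
        · exact Or.inr (Subtype.ext h1)
        · exfalso
          have : 0 < sin (π * pt w) :=
            sin_pos_of_pos_of_lt_pi (mul_pos pi_pos h0) (by nlinarith [pi_pos])
          linarith
    rcases h01 with h0 | h1
    · rw [h0]; exact mk_zero _ _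
    · rw [h1]; exact mk_one _ _
  · have hu : u = pu w := by
      apply Subtype.ext
      ext i
      exact mul_left_cancel₀ hs ((h.2 i).symm.trans (h'.2 i))
    rw [hu]

lemma nonshort_bdS {b : Sph d → M}
    (hb : ∀ w w' : Sph d, InnerProductGeometry.angle w.1 w'.1 ≤ dist (b w) (b w'))
    (w w' : Sph (d + 1)) :
    InnerProductGeometry.angle w.1 w'.1 ≤ dist (bdS b w) (bdS b w') := by
  unfold bdS
  rw [dist_mk]
  have h := inner_polar (isPolar_pt w) (isPolar_pt w')
  have h1 : cos (min (dist (b (pu w)) (b (pu w'))) π) ≤ inner ℝ (pu w).1 (pu w').1 := by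
    have h2 : inner ℝ (pu w).1 (pu w').1 =
        cos (InnerProductGeometry.angle (pu w).1 (pu w').1) := by
      rw [InnerProductGeometry.cos_angle, (pu w).2, (pu w').2]; simp
    rw [h2]
    exact cos_le_cos_of_nonneg_of_le_pi (InnerProductGeometry.angle_nonneg _ _)
      (min_le_right _ _) (le_min (hb _ _) (InnerProductGeometry.angle_le_pi _ _))
  have h3 : 0 ≤ sin (π * pt w) * sin (π * pt w') :=
    mul_nonneg (sin_nonneg_of_mem_Icc (pi_mul_mem _)) (sin_nonneg_of_mem_Icc (pi_mul_mem _))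
  have h4 := mul_le_mul_of_nonneg_left h1 h3
  unfold InnerProductGeometry.angle sd
  rw [w.2, w'.2, mul_one, div_one, h]
  exact arccos_le_arccos (by linarith)

lemma isPolar_sphS (x : Fin (d + 2) → unitInterval) :
    IsPolar (sphS (d + 2) x) (x 0) (sphS (d + 1) (Fin.tail x)) :=
  ⟨rfl, fun _ => rfl⟩

lemma bdS_sphS (b : Sph (d + 1) → M) :
    (fun x => bdS b (sphS (d + 2) x)) = susp (fun x => b (sphS (d + 1) x)) := by
  funext x
  rw [bdS_eq b (isPolar_sphS x)]
  rfl

end

end Pool.Agent.TH599.SU
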