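import Mathlib

set_option autoImplicit false

open Real Set MeasureTheory Filter Topology

namespace Pool.Agent.TH599.SU

/-- the volume of the unit hemisphere of dimension `n` -/
noncomputable def hemi (n : ℕ) : ℝ :=
  (1 / 2) * ((volume : Measure (EuclideanSpace ℝ (Fin (n + 1)))).toSphere univ).toReal

lemma hemi_eq (n : ℕ) : hemi n = √π ^ (n + 1) / Gamma (((n : ℝ) + 1) / 2) := by
  unfold hemi
  rw [Measure.toSphere_apply_univ, EuclideanSpace.volume_ball]
  have h0 : (0:ℝ) < ((n : ℝ) + 1) / 2 := by positivity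
  have hG : 0 < Gamma (((n : ℝ) + 1) / 2) := Gamma_pos_of_pos h0
  have hG1 : Gamma (((n : ℝ) + 1) / 2 + 1) = ((n : ℝ) + 1) / 2 * Gamma (((n : ℝ) + 1) / 2) :=
    Gamma_add_one h0.ne'
  simp only [finrank_euclideanSpace, Fintype.card_fin, ENNReal.ofReal_one, one_pow, one_mul,
    ENNReal.toReal_mul]
  push_cast
  rw [ENNReal.toReal_ofReal (by rw [hG1]; positivity), hG1]
  have h1 : ((n : ENNReal) + 1).toReal = (n : ℝ) + 1 := by
    rw [ENNReal.toReal_add (by simp) (by simp)]; simp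
  rw [h1]
  field_simp

/-- `∫ sin^n` -/
noncomputable def W (n : ℕ) : ℝ := ∫ x in (0:ℝ)..π, sin x ^ n

lemma W_pos (n : ℕ) : 0 < W n := integral_sin_pow_pos n

lemma W_rec (n : ℕ) : W (n + 2) = ((n : ℝ) + 1) / (n + 2) * W n := by
  unfold W
  rw [integral_sin_pow]
  simp

lemma W_eq (n : ℕ) : W n * Gamma (((n : ℝ) + 2) / 2) = √π * Gamma (((n : ℝ) + 1) / 2) := by
  induction n using Nat.twoStepInduction with
  | zero =>
    have h1 : W 0 = π := by unfold W; simp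
    rw [h1]
    norm_num
    rw [Gamma_one_half_eq, mul_self_sqrt pi_pos.le]
  | one =>
    have h1 : W 1 = 2 := by unfold W; simp; norm_num
    rw [h1]
    norm_num
    have h2 : Gamma (3 / 2) = 1 / 2 * Gamma (1 / 2) := by
      have := Gamma_add_one (s := (1/2 : ℝ)) (by norm_num)
      rw [← this]; norm_num
    rw [h2, Gamma_one_half_eq]
    ring
  | more n ih _ =>
    rw [W_rec]
    push_cast
    have e1 : ((n : ℝ) + 2 + 2) / 2 = ((n : ℝ) + 2) / 2 + 1 := by ring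
    have e2 : ((n : ℝ) + 2 + 1) / 2 = ((n : ℝ) + 1) / 2 + 1 := by ring
    rw [e1, e2, Gamma_add_one (by positivity), Gamma_add_one (by positivity)]
    have h2 : (n : ℝ) + 2 ≠ 0 := by positivity
    calc ((n : ℝ) + 1) / (n + 2) * W n * (((n : ℝ) + 2) / 2 * Gamma (((n : ℝ) + 2) / 2))
        = ((n : ℝ) + 1) / 2 * (W n * Gamma (((n : ℝ) + 2) / 2)) := by field_simp
      _ = ((n : ℝ) + 1) / 2 * (√π * Gamma (((n : ℝ) + 1) / 2)) := by rw [ih]
      _ = _ := by ring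

lemma hemi_succ (n : ℕ) : hemi (n + 1) = W n * hemi n := by
  rw [hemi_eq, hemi_eq]
  push_cast
  have h := W_eq n
  have h1 : 0 < Gamma (((n : ℝ) + 1) / 2) := Gamma_pos_of_pos (by positivity)
  have h2 : 0 < Gamma (((n : ℝ) + 2) / 2) := Gamma_pos_of_pos (by positivity)
  have e1 : ((n : ℝ) + 1 + 1) / 2 = ((n : ℝ) + 2) / 2 := by ring
  rw [e1, div_eq_iff h2.ne', pow_succ √π (n + 1)]
  have h3 : W n = √π * Gamma (((n : ℝ) + 1) / 2) / Gamma (((n : ℝ) + 2) / 2) := by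
    rw [eq_div_iff h2.ne']; exact h
  rw [h3]
  field_simp

lemma hemi_pos (n : ℕ) : 0 < hemi n := by
  rw [hemi_eq]
  have h1 : 0 < Gamma (((n : ℝ) + 1) / 2) := Gamma_pos_of_pos (by positivity)
  have := pi_pos
  positivity

/-- Fubini for the cube -/
lemma cube_fubini (n : ℕ) (g : ℝ → ℝ) (h : (Fin n → ℝ) → ℝ) :
    ∫ z in Icc (0 : Fin (n + 1) → ℝ) 1, g (z 0) * h (Fin.tail z) =
      (∫ t in (0:ℝ)..1, g t) * ∫ z in Icc (0 : Fin n → ℝ) 1, h z := by
  have hmp := volume_preserving_piFinSuccAbove (fun _ : Fin (n + 1) => ℝ) 0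
  have e : Icc (0 : Fin (n + 1) → ℝ) 1 =
      (MeasurableEquiv.piFinSuccAbove (fun _ : Fin (n + 1) => ℝ) 0) ⁻¹'
        (Icc (0:ℝ) 1 ×ˢ Icc (0 : Fin n → ℝ) 1) := by
    ext z
    simp only [mem_Icc, mem_preimage, mem_prod, Pi.le_def, Fin.forall_fin_succ,
      MeasurableEquiv.piFinSuccAbove_apply]
    simp [Fin.insertNthEquiv, Fin.removeNth]
    tauto
  rw [e]
  have h1 := hmp.setIntegral_preimage_emb (MeasurableEquiv.measurableEmbedding _)
    (fun p : ℝ × (Fin n → ℝ) => g p.1 * h p.2) (Icc (0:ℝ) 1 ×ˢ Icc (0 : Fin n → ℝ) 1)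
  have h2 : ∀ z : Fin (n + 1) → ℝ, g (z 0) * h (Fin.tail z) =
      (fun p : ℝ × (Fin n → ℝ) => g p.1 * h p.2)
        ((MeasurableEquiv.piFinSuccAbove (fun _ : Fin (n + 1) => ℝ) 0) z) := by
    intro z
    rfl
  simp_rw [h2]
  rw [h1, Measure.volume_eq_prod, setIntegral_prod_mul, intervalIntegral.integral_of_le zero_le_one,
    integral_Icc_eq_integral_Ioc]

end Pool.Agent.TH599.SU
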