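import Pool.Agent.TH599.SU.Trig
import Pool.Agent.TH599.SU.Vol
import Pool.Agent.TH599.SU.Defs

set_option autoImplicit false

open Real Set MeasureTheory Filter Topology

namespace Pool.Agent.TH599.SU

lemma pi_mul_mem (t : unitInterval) : π * (t : ℝ) ∈ Icc 0 π :=
  ⟨mul_nonneg pi_pos.le t.2.1, by nlinarith [pi_pos, t.2.2]⟩

/-- the suspension before identification -/
def Pre (M : Type) : Type := M × unitInterval

section metric

variable {M : Type} [MetricSpace M]

/-- the distance of the spherical suspension -/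
noncomputable def pd (p q : Pre M) : ℝ := sd (π * p.2) (π * q.2) (min (dist p.1 q.1) π)

noncomputable instance : PseudoMetricSpace (Pre M) where
  dist := pd
  dist_self p := by
    change sd _ _ _ = 0
    rw [dist_self, min_eq_left pi_pos.le, sd_self]
  dist_comm p q := by
    change sd _ _ _ = sd _ _ _
    rw [dist_comm, sd_comm]
  dist_triangle p q r := by
    change sd _ _ _ ≤ sd _ _ _ + sd _ _ _
    have h := dist_triangle p.1 q.1 r.1
    refine sd_tri (pi_mul_mem _) (pi_mul_mem _) (pi_mul_mem _) (le_min dist_nonneg pi_pos.le)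
      (min_le_right _ _) (min_le_right _ _) (le_min dist_nonneg pi_pos.le) (min_le_right _ _) ?_
    rcases le_total (dist p.1 q.1) π with h1 | h1
    · rcases le_total (dist q.1 r.1) π with h2 | h2
      · rw [min_eq_left h1, min_eq_left h2]
        exact (min_le_left _ _).trans h
      · rw [min_eq_right h2]
        have h3 : 0 ≤ min (dist p.1 q.1) π := le_min dist_nonneg pi_pos.le
        have h4 : min (dist p.1 r.1) π ≤ π := min_le_right _ _
        linarith
    · rw [min_eq_right h1]
      have h3 : 0 ≤ min (dist q.1 r.1) π := le_min dist_nonneg pi_pos.le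
      have h4 : min (dist p.1 r.1) π ≤ π := min_le_right _ _
      linarith

/-- a point of the spherical suspension -/
noncomputable def mk (p : M) (t : unitInterval) : SeparationQuotient (Pre M) :=
  SeparationQuotient.mk ((p, t) : Pre M)

lemma dist_mk (p q : M) (s t : unitInterval) :
    dist (mk p s) (mk q t) = sd (π * s) (π * t) (min (dist p q) π) := by
  exact SeparationQuotient.dist_mk (α := Pre M) (p, s) (q, t)

lemma mk_zero (p q : M) : mk p 0 = mk q 0 := by
  rw [← dist_eq_zero, dist_mk]
  simp [sd_pole_zero]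

lemma mk_one (p q : M) : mk p 1 = mk q 1 := by
  rw [← dist_eq_zero, dist_mk]
  simp [sd_pole_pi]

/-- the suspension of a singular cube -/
noncomputable def susp {n : ℕ} (σ : (Fin n → unitInterval) → M) :
    (Fin (n + 1) → unitInterval) → SeparationQuotient (Pre M) :=
  fun y => mk (σ (Fin.tail y)) (y 0)

lemma tail_insertNth {n : ℕ} (j : Fin (n + 1)) (ε : unitInterval)
    (x : Fin (n + 1) → unitInterval) :
    Fin.tail ((j.succ.insertNth ε x : Fin (n + 2) → unitInterval)) =
      (j.insertNth ε (Fin.tail x) : Fin (n + 1) → unitInterval) := by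
  rw [Fin.eq_insertNth_iff]
  constructor
  · simp [Fin.tail]
  · funext k
    simp only [Fin.removeNth, Fin.tail]
    rw [← Fin.succ_succAbove_succ, Fin.insertNth_apply_succAbove]

lemma insertNth_zero' {n : ℕ} (j : Fin (n + 1)) (ε : unitInterval)
    (x : Fin (n + 1) → unitInterval) :
    (j.succ.insertNth ε x : Fin (n + 2) → unitInterval) 0 = x 0 := by
  have h : (0 : Fin (n + 2)) = (j.succ).succAbove 0 := by
    simp
  rw [h, Fin.insertNth_apply_succAbove]

lemma face_susp_succ {n : ℕ} (j : Fin (n + 1)) (ε : unitInterval)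
    (σ : (Fin (n + 1) → unitInterval) → M) : face j.succ ε (susp σ) = susp (face j ε σ) := by
  funext x
  unfold face susp
  rw [tail_insertNth, insertNth_zero']

lemma degen_face_zero {n : ℕ} (σ : (Fin (n + 1) → unitInterval) → M) :
    Degen (face 0 0 (susp σ)) := by
  refine ⟨0, fun x y _ => ?_⟩
  unfold face susp
  simp only [Fin.insertNth_apply_same]
  exact mk_zero _ _

lemma degen_face_one {n : ℕ} (σ : (Fin (n + 1) → unitInterval) → M) :
    Degen (face 0 1 (susp σ)) := by
  refine ⟨0, fun x y _ => ?_⟩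
  unfold face susp
  simp only [Fin.insertNth_apply_same]
  exact mk_one _ _

lemma degen_susp {n : ℕ} {σ : (Fin n → unitInterval) → M} (h : Degen σ) : Degen (susp σ) := by
  obtain ⟨i, hi⟩ := h
  refine ⟨i.succ, fun x y hxy => ?_⟩
  unfold susp
  have h1 : σ (Fin.tail x) = σ (Fin.tail y) := by
    apply hi
    intro j hj
    exact hxy j.succ (fun h => hj (Fin.succ_injective _ h))
  have h2 : x 0 = y 0 := hxy 0 (Fin.succ_ne_zero i).symm
  rw [h1, h2]

/-- suspension of chains -/
noncomputable def SC (n : ℕ) : FreeAbelianGroup ((Fin n → unitInterval) → M) →+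
    FreeAbelianGroup ((Fin (n + 1) → unitInterval) → SeparationQuotient (Pre M)) :=
  FreeAbelianGroup.lift fun σ => FreeAbelianGroup.of (susp σ)

lemma SC_of {n : ℕ} (σ : (Fin n → unitInterval) → M) :
    SC n (FreeAbelianGroup.of σ) = FreeAbelianGroup.of (susp σ) :=
  FreeAbelianGroup.lift_apply_of _ _

lemma SC_deg {n : ℕ} {c : FreeAbelianGroup ((Fin n → unitInterval) → M)} (hc : c ∈ DegG M n) :
    SC n c ∈ DegG (SeparationQuotient (Pre M)) (n + 1) := by
  have h : DegG M n ≤ (DegG (SeparationQuotient (Pre M)) (n + 1)).comap (SC n) := by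
    unfold DegG
    rw [AddSubgroup.closure_le]
    rintro c ⟨σ, hσ, rfl⟩
    change SC n (FreeAbelianGroup.of σ) ∈ DegG (SeparationQuotient (Pre M)) (n + 1)
    rw [SC_of]
    exact AddSubgroup.subset_closure ⟨_, degen_susp hσ, rfl⟩
  exact h hc

lemma bdry_of {n : ℕ} {N : Type} (σ : (Fin (n + 1) → unitInterval) → N) :
    bdry n (FreeAbelianGroup.of σ) = ∑ i : Fin (n + 1), (-1 : ℤ) ^ (i : ℕ) •
    (FreeAbelianGroup.of (face i 1 σ) - FreeAbelianGroup.of (face i 0 σ)) :=
  FreeAbelianGroup.lift_apply_of _ _

lemma bdry_SC (n : ℕ) (c : FreeAbelianGroup ((Fin (n + 1) → unitInterval) → M)) :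
    bdry (n + 1) (SC (n + 1) c) + SC n (bdry n c) ∈
      DegG (SeparationQuotient (Pre M)) (n + 1) := by
  induction c using FreeAbelianGroup.induction_on with
  | zero => simp only [map_zero, add_zero]; exact zero_mem _
  | of σ =>
    rw [SC_of, bdry_of, bdry_of, Fin.sum_univ_succ, map_sum]
    have h1 : ∀ j : Fin (n + 1), (-1 : ℤ) ^ ((j.succ : Fin (n + 2)) : ℕ) •
        (FreeAbelianGroup.of (face j.succ 1 (susp σ)) -
          FreeAbelianGroup.of (face j.succ 0 (susp σ))) =
        -(SC n ((-1 : ℤ) ^ (j : ℕ) •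
          (FreeAbelianGroup.of (face j 1 σ) - FreeAbelianGroup.of (face j 0 σ)))) := by
      intro j
      rw [face_susp_succ, face_susp_succ, map_zsmul, map_sub, SC_of, SC_of, Fin.val_succ, pow_succ,
        mul_neg_one, neg_smul]
    rw [Finset.sum_congr rfl fun j _ => h1 j, Finset.sum_neg_distrib]
    simp only [Fin.val_zero, pow_zero, one_smul]
    have h2 : ∀ a b : FreeAbelianGroup ((Fin (n + 1) → unitInterval) →
        SeparationQuotient (Pre M)), a + -b + b = a := by intro a b; abel
    rw [h2]
    exact sub_mem (AddSubgroup.subset_closure ⟨_, degen_face_one σ, rfl⟩)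
      (AddSubgroup.subset_closure ⟨_, degen_face_zero σ, rfl⟩)
  | neg σ ih =>
    rw [map_neg, map_neg, map_neg, map_neg, ← neg_add]
    exact neg_mem ih
  | add x y hx hy =>
    rw [map_add, map_add, map_add, map_add]
    have : bdry (n + 1) (SC (n + 1) x) + bdry (n + 1) (SC (n + 1) y) +
        (SC n (bdry n x) + SC n (bdry n y)) =
        (bdry (n + 1) (SC (n + 1) x) + SC n (bdry n x)) +
        (bdry (n + 1) (SC (n + 1) y) + SC n (bdry n y)) := by abel
    rw [this]
    exact add_mem hx hy

end metric

end Pool.Agent.TH599.SU
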