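import Mathlib

set_option autoImplicit false

open Real Set MeasureTheory Filter Topology

namespace Pool.Agent.TH599.SU

/-- spherical distance of the points with colatitudes `s`, `t` whose longitudes differ by `a` -/
noncomputable def sd (s t a : ℝ) : ℝ := arccos (cos s * cos t + sin s * sin t * cos a)

lemma key_id (s t a : ℝ) : (cos s * cos t + sin s * sin t * cos a) ^ 2 +
    (-(cos s * sin t) + sin s * cos t * cos a) ^ 2 + (sin s * sin a) ^ 2 = 1 := by
  have h1 := sin_sq_add_cos_sq s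
  have h2 := sin_sq_add_cos_sq t
  have h3 := sin_sq_add_cos_sq a
  linear_combination (cos s ^ 2 + sin s ^ 2 * cos a ^ 2) * h2 + sin s ^ 2 * h3 + h1

lemma arg_sq_le (s t a : ℝ) : (cos s * cos t + sin s * sin t * cos a) ^ 2 ≤ 1 := by
  nlinarith [key_id s t a, sq_nonneg (-(cos s * sin t) + sin s * cos t * cos a),
    sq_nonneg (sin s * sin a)]

lemma arg_abs_le (s t a : ℝ) : |cos s * cos t + sin s * sin t * cos a| ≤ 1 := by
  rw [← sq_le_one_iff_abs_le_one]
  exact arg_sq_le s t a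

lemma sd_comm (s t a : ℝ) : sd s t a = sd t s a := by
  unfold sd; congr 1; ring

lemma sd_self (s : ℝ) : sd s s 0 = 0 := by
  unfold sd
  rw [cos_zero, mul_one]
  have : cos s * cos s + sin s * sin s = 1 := by nlinarith [sin_sq_add_cos_sq s]
  rw [this, arccos_one]

lemma sd_nonneg (s t a : ℝ) : 0 ≤ sd s t a := arccos_nonneg _

lemma sd_le_pi (s t a : ℝ) : sd s t a ≤ π := arccos_le_pi _

lemma sd_pole_zero (a : ℝ) : sd 0 0 a = 0 := by
  unfold sd; simp

lemma sd_pole_pi (a : ℝ) : sd π π a = 0 := by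
  unfold sd; simp

lemma sd_mono {s t a b : ℝ} (hs : s ∈ Icc 0 π) (ht : t ∈ Icc 0 π) (ha : 0 ≤ a) (hab : a ≤ b)
    (hb : b ≤ π) : sd s t a ≤ sd s t b := by
  unfold sd
  apply arccos_le_arccos
  have h1 : cos b ≤ cos a := cos_le_cos_of_nonneg_of_le_pi ha hb hab
  have h2 : 0 ≤ sin s * sin t :=
    mul_nonneg (sin_nonneg_of_mem_Icc hs) (sin_nonneg_of_mem_Icc ht)
  nlinarith

/-- the point of the sphere with colatitude `s` and longitude `a` -/
noncomputable def vv (s a : ℝ) : EuclideanSpace ℝ (Fin 3) :=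
  !₂[cos s, sin s * cos a, sin s * sin a]

lemma inner_vv (s a t b : ℝ) :
    inner ℝ (vv s a) (vv t b) = cos s * cos t + sin s * sin t * cos (a - b) := by
  unfold vv
  rw [cos_sub]
  simp [PiLp.inner_apply, Fin.sum_univ_three]
  ring

lemma norm_vv (s a : ℝ) : ‖vv s a‖ = 1 := by
  have h : ‖vv s a‖ ^ 2 = 1 := by
    rw [← real_inner_self_eq_norm_sq, inner_vv, sub_self, cos_zero]
    nlinarith [sin_sq_add_cos_sq s]
  have h2 : 0 ≤ ‖vv s a‖ := norm_nonneg _
  nlinarith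

lemma angle_vv (s a t b : ℝ) : InnerProductGeometry.angle (vv s a) (vv t b) = sd s t (a - b) := by
  unfold InnerProductGeometry.angle sd
  rw [inner_vv, norm_vv, norm_vv]
  simp

lemma sd_neg (s t a : ℝ) : sd s t (-a) = sd s t a := by
  unfold sd; rw [cos_neg]

lemma sd_tri_add (r s t a b : ℝ) : sd r t (a + b) ≤ sd r s a + sd s t b := by
  have h := InnerProductGeometry.angle_le_angle_add_angle (vv r 0) (vv s a) (vv t (a + b))
  rw [angle_vv, angle_vv, angle_vv] at h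
  have e1 : (0 : ℝ) - (a + b) = -(a + b) := by ring
  have e2 : (0 : ℝ) - a = -a := by ring
  have e3 : a - (a + b) = -b := by ring
  rw [e1, e2, e3, sd_neg, sd_neg, sd_neg] at h
  exact h

/-- the triangle inequality for the spherical suspension -/
lemma sd_tri {r s t a b c : ℝ} (hr : r ∈ Icc 0 π) (hs : s ∈ Icc 0 π) (ht : t ∈ Icc 0 π)
    (ha : 0 ≤ a) (ha' : a ≤ π) (hb' : b ≤ π) (hc : 0 ≤ c) (hc' : c ≤ π)
    (habc : c ≤ a + b) : sd r t c ≤ sd r s a + sd s t b := by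
  rcases le_total (a + b) π with h | h
  · exact (sd_mono hr ht hc habc h).trans (sd_tri_add r s t a b)
  · have h1 : sd r t c ≤ sd r t π := sd_mono hr ht hc hc' le_rfl
    have h2 := sd_tri_add r s t a (π - a)
    have e : a + (π - a) = π := by ring
    rw [e] at h2
    have h3 : sd s t (π - a) ≤ sd s t b := sd_mono hs ht (by linarith) (by linarith) hb'
    linarith

/-- spherical distances are at most the lengths of curves -/
lemma len_cont (s₀ s₁ : ℝ) (ρ : ℝ → ℝ) (hρ : Continuous ρ) (hρ0 : ∀ t, 0 ≤ ρ t) (a : ℝ)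
    (ha0 : 0 ≤ a) (ha : a ≤ ∫ t in (0:ℝ)..1, ρ t) :
    sd s₀ s₁ a ≤ ∫ t in (0:ℝ)..1, √((s₁ - s₀) ^ 2 + sin (s₀ + t * (s₁ - s₀)) ^ 2 * ρ t ^ 2) := by
  set R := ∫ t in (0:ℝ)..1, ρ t with hR
  obtain ⟨l, hl0, hl1, hlR⟩ : ∃ l : ℝ, 0 ≤ l ∧ l ≤ 1 ∧ l * R = a := by
    rcases eq_or_ne R 0 with h | h
    · exact ⟨0, le_rfl, zero_le_one, by rw [h] at ha; rw [zero_mul]; linarith⟩
    · have hRp : 0 < R := lt_of_le_of_ne (ha0.trans ha) (Ne.symm h)
      exact ⟨a / R, div_nonneg ha0 hRp.le, (div_le_one hRp).2 ha, div_mul_cancel₀ _ h⟩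
  set δ := s₁ - s₀ with hδ
  set θ : ℝ → ℝ := fun t => s₀ + t * δ with hθ
  set r : ℝ → ℝ := fun t => l * ∫ u in (0:ℝ)..t, ρ u with hr
  set c : ℝ → ℝ := fun t => cos s₀ * cos (θ t) + sin s₀ * sin (θ t) * cos (r t) with hc
  set v : ℝ → ℝ := fun t => √(δ ^ 2 + sin (θ t) ^ 2 * ρ t ^ 2) with hv
  have hθd : ∀ t, HasDerivAt θ δ t := by
    intro t
    exact (((hasDerivAt_id t).mul_const δ).const_add s₀).congr_deriv (one_mul δ)
  have hrd : ∀ t, HasDerivAt r (l * ρ t) t := by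
    intro t
    exact (intervalIntegral.integral_hasDerivAt_right (hρ.intervalIntegrable _ _)
      (hρ.stronglyMeasurableAtFilter _ _) hρ.continuousAt).const_mul l
  have hcd : ∀ t, HasDerivAt c (δ * (-(cos s₀ * sin (θ t)) + sin s₀ * cos (θ t) * cos (r t)) -
      (l * ρ t * sin (θ t)) * (sin s₀ * sin (r t))) t := by
    intro t
    have h1 := ((hθd t).cos.const_mul (cos s₀)).add
      (((hθd t).sin.const_mul (sin s₀)).mul (hrd t).cos)
    refine h1.congr_deriv ?_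
    ring
  have hvc : Continuous v := by
    have hθc : Continuous θ := by fun_prop
    exact ((continuous_const).add (((continuous_sin.comp hθc).pow 2).mul (hρ.pow 2))).sqrt
  have hv0 : ∀ t, 0 ≤ v t := fun t => sqrt_nonneg _
  have hvd : ∀ t, HasDerivAt (fun t => ∫ u in (0:ℝ)..t, v u) (v t) t := by
    intro t
    exact intervalIntegral.integral_hasDerivAt_right (hvc.intervalIntegrable _ _)
      (hvc.stronglyMeasurableAtFilter _ _) hvc.continuousAt
  -- the main estimate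
  have hest : ∀ t, (δ * (-(cos s₀ * sin (θ t)) + sin s₀ * cos (θ t) * cos (r t)) -
      (l * ρ t * sin (θ t)) * (sin s₀ * sin (r t))) ^ 2 ≤ (1 - c t ^ 2) * v t ^ 2 := by
    intro t
    have h1 := key_id s₀ (θ t) (r t)
    have h2 : v t ^ 2 = δ ^ 2 + sin (θ t) ^ 2 * ρ t ^ 2 := by
      rw [hv]; exact sq_sqrt (by positivity)
    have h3 : 1 - c t ^ 2 = (-(cos s₀ * sin (θ t)) + sin s₀ * cos (θ t) * cos (r t)) ^ 2 +
        (sin s₀ * sin (r t)) ^ 2 := by
      rw [hc]; linarith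
    rw [h2, h3]
    set A := -(cos s₀ * sin (θ t)) + sin s₀ * cos (θ t) * cos (r t)
    set B := sin s₀ * sin (r t)
    have h4 : (δ * A - (l * ρ t * sin (θ t)) * B) ^ 2 ≤
        (A ^ 2 + B ^ 2) * (δ ^ 2 + (l * ρ t * sin (θ t)) ^ 2) := by
      nlinarith [sq_nonneg (δ * B + (l * ρ t * sin (θ t)) * A)]
    refine h4.trans (mul_le_mul_of_nonneg_left ?_ (by positivity))
    have h5 : l ^ 2 ≤ 1 := by nlinarith
    have h6 : (l * ρ t * sin (θ t)) ^ 2 = l ^ 2 * (sin (θ t) ^ 2 * ρ t ^ 2) := by ring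
    rw [h6]
    have h7 : 0 ≤ sin (θ t) ^ 2 * ρ t ^ 2 := by positivity
    nlinarith
  have hc1 : ∀ t, c t ^ 2 ≤ 1 := fun t => arg_sq_le _ _ _
  have hk : ∀ k : ℝ, 0 < k → k < 1 → arccos (k * c 1) ≤ arccos k + ∫ u in (0:ℝ)..1, v u := by
    intro k hk0 hk1
    set Φ : ℝ → ℝ := fun t => arccos (k * c t) - ∫ u in (0:ℝ)..t, v u with hΦ
    have hkc : ∀ t, (k * c t) ^ 2 < 1 := by
      intro t
      have := hc1 t
      have h1 : k ^ 2 < 1 := by nlinarith
      nlinarith [sq_nonneg (c t)]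
    have hΦd : ∀ t, HasDerivAt Φ (-(1 / √(1 - (k * c t) ^ 2)) *
        (k * (δ * (-(cos s₀ * sin (θ t)) + sin s₀ * cos (θ t) * cos (r t)) -
      (l * ρ t * sin (θ t)) * (sin s₀ * sin (r t)))) - v t) t := by
      intro t
      have h1 : k * c t ≠ -1 := by
        intro h; have := hkc t; rw [h] at this; norm_num at this
      have h2 : k * c t ≠ 1 := by
        intro h; have := hkc t; rw [h] at this; norm_num at this
      exact ((hasDerivAt_arccos h1 h2).comp t ((hcd t).const_mul k)).sub (hvd t)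
    have hΦn : ∀ t, deriv Φ t ≤ 0 := by
      intro t
      rw [(hΦd t).deriv]
      set D := δ * (-(cos s₀ * sin (θ t)) + sin s₀ * cos (θ t) * cos (r t)) -
        (l * ρ t * sin (θ t)) * (sin s₀ * sin (r t)) with hD
      have h1 : D ^ 2 ≤ (1 - c t ^ 2) * v t ^ 2 := hest t
      have h2 : 0 < 1 - (k * c t) ^ 2 := by linarith [hkc t]
      set q := √(1 - (k * c t) ^ 2) with hq
      have hq0 : 0 < q := sqrt_pos.2 h2
      have hq2 : q ^ 2 = 1 - (k * c t) ^ 2 := sq_sqrt h2.le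
      have h3 : |k * D| ≤ q * v t := by
        apply abs_le_of_sq_le_sq _ (mul_nonneg hq0.le (hv0 t))
        have h4 : (k * D) ^ 2 = k ^ 2 * D ^ 2 := by ring
        rw [h4, mul_pow, hq2]
        have h5 : k ^ 2 * D ^ 2 ≤ k ^ 2 * ((1 - c t ^ 2) * v t ^ 2) :=
          mul_le_mul_of_nonneg_left h1 (sq_nonneg k)
        have h6 : k ^ 2 * ((1 - c t ^ 2) * v t ^ 2) ≤ (1 - (k * c t) ^ 2) * v t ^ 2 := by
          have h7 : k ^ 2 ≤ 1 := by nlinarith
          nlinarith [sq_nonneg (v t)]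
        exact h5.trans h6
      have h4 : -(1 / q) * (k * D) ≤ v t := by
        have h5 : -(k * D) ≤ q * v t := (neg_le_abs _).trans h3
        calc -(1 / q) * (k * D) = (1 / q) * (-(k * D)) := by ring
          _ ≤ (1 / q) * (q * v t) := mul_le_mul_of_nonneg_left h5 (by positivity)
          _ = v t := by field_simp
      linarith
    have hanti : Antitone Φ := antitone_of_deriv_nonpos (fun t => (hΦd t).differentiableAt) hΦn
    have h1 := hanti (zero_le_one (α := ℝ))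
    have e0 : c 0 = 1 := by
      rw [hc, hθ, hr]
      simp only [zero_mul, add_zero, intervalIntegral.integral_same, mul_zero, cos_zero, mul_one]
      nlinarith [sin_sq_add_cos_sq s₀]
    simp only [hΦ, e0, mul_one, intervalIntegral.integral_same, sub_zero] at h1
    linarith
  have e1 : c 1 = cos s₀ * cos s₁ + sin s₀ * sin s₁ * cos a := by
    have h1 : θ 1 = s₁ := by rw [hθ]; simp [hδ]
    have h2 : r 1 = a := hlR
    rw [hc]
    simp only [h1, h2]
  have hlim : Tendsto (fun k : ℝ => arccos (k * c 1)) (𝓝[<] 1) (𝓝 (arccos (c 1))) := by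
    have : ContinuousAt (fun k : ℝ => arccos (k * c 1)) 1 := by fun_prop
    have h2 := this.tendsto
    rw [one_mul] at h2
    exact h2.mono_left nhdsWithin_le_nhds
  have hlim2 : Tendsto (fun k : ℝ => arccos k + ∫ u in (0:ℝ)..1, v u) (𝓝[<] 1)
      (𝓝 (∫ u in (0:ℝ)..1, v u)) := by
    have : ContinuousAt (fun k : ℝ => arccos k + ∫ u in (0:ℝ)..1, v u) 1 := by fun_prop
    have h2 := this.tendsto
    rw [arccos_one, zero_add] at h2
    exact h2.mono_left nhdsWithin_le_nhds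
  have hfin := le_of_tendsto_of_tendsto hlim hlim2 (by
    have h1 : ∀ᶠ k : ℝ in 𝓝[<] 1, k ∈ Ioo (0:ℝ) 1 := Ioo_mem_nhdsLT zero_lt_one
    filter_upwards [h1] with k hk'
    exact hk k hk'.1 hk'.2)
  unfold sd
  rw [← e1]
  exact hfin

lemma len_lemma (s₀ s₁ : ℝ) (ρ : ℝ → ℝ) (hρ : ContinuousOn ρ (Icc 0 1))
    (hρ0 : ∀ t ∈ Icc (0:ℝ) 1, 0 ≤ ρ t) (a : ℝ)
    (ha0 : 0 ≤ a) (ha : a ≤ ∫ t in (0:ℝ)..1, ρ t) :
    sd s₀ s₁ a ≤ ∫ t in (0:ℝ)..1, √((s₁ - s₀) ^ 2 + sin (s₀ + t * (s₁ - s₀)) ^ 2 * ρ t ^ 2) := by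
  set p : ℝ → ℝ := fun t => max 0 (min t 1) with hp
  have hpc : Continuous p := by fun_prop
  have hpm : ∀ t, p t ∈ Icc (0:ℝ) 1 := fun t =>
    ⟨le_max_left _ _, max_le zero_le_one (min_le_right _ _)⟩
  have hpe : ∀ t ∈ Icc (0:ℝ) 1, p t = t := by
    rintro t ⟨h0, h1⟩
    rw [hp]; simp only [min_eq_left h1, max_eq_right h0]
  have hcont : Continuous (fun t => ρ (p t)) := hρ.comp_continuous hpc hpm
  have e1 : ∫ t in (0:ℝ)..1, ρ (p t) = ∫ t in (0:ℝ)..1, ρ t := by
    apply intervalIntegral.integral_congr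
    intro t ht
    rw [uIcc_of_le zero_le_one] at ht
    simp only [hpe t ht]
  have h := len_cont s₀ s₁ (fun t => ρ (p t)) hcont (fun t => hρ0 _ (hpm t)) a ha0 (by
    rw [e1]; exact ha)
  refine h.trans (le_of_eq ?_)
  apply intervalIntegral.integral_congr
  intro t ht
  rw [uIcc_of_le zero_le_one] at ht
  simp only [hpe t ht]

end Pool.Agent.TH599.SU
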